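import Pool.Agent.W391.BGR.Term2
import Pool.Agent.W309.BGRLC
import Pool.Agent.W284.BGRPRES
import Pool.Agent.W682.BGRREL

set_option autoImplicit false

/-!
# The Baumslag-Gersten group has a finite complete rewriting system

Letters (capital letters are the inverses) `a, A, b, B, p, P, t, T` with `b = T a t`, `p = t a T`;
rules: the eight free reductions and
`B a -> a a B`, `B A -> A A B`, `b a a -> a b`, `b A -> A b a`,
`p a -> a p p`, `P a -> a P P`, `p p A -> A p`, `P A -> p A P`,
`t a -> p t`, `t A -> P t`, `t b -> a t`, `t B -> A t`,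
`T p -> a T`, `T P -> A T`, `T a -> b T`, `T A -> B T`.

Termination: letters only flow to the left through the letters `b, B` and `t, T`. The 72 critical
pairs are joinable.
-/

namespace Pool.Agent.Results.MP_b9845b_al.BaumslagGersten

open Pool.Agent.W391.BGR

theorem back {u v : Wd}
    (h : Relation.ReflTransGen (fun a b => St RR a b ∨ St RR b a) u v) :
    (u.map phi).prod = (v.map phi).prod := by
  have h1 : ∀ a b : Wd, St RR a b → (a.map phi).prod = (b.map phi).prod := by
    rintro a b ⟨x, y, p, hp, rfl, rfl⟩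
    have := Pool.Agent.W682.BGRREL.main1 p hp
    simp only [List.map_append, List.prod_append, this]
  induction h with
  | refl => rfl
  | tail _ h2 ih =>
    rcases h2 with h2 | h2
    · exact ih.trans (h1 _ _ h2)
    · exact ih.trans (h1 _ _ h2).symm

/-- The Baumslag-Gersten group `⟨a, t ∣ (t⁻¹ a⁻¹ t) a (t⁻¹ a t) = a²⟩` (generators `a = 0`, `t = 1`)
has a finite complete rewriting system: a finite alphabet and a finite set `R` of rules such that
rewriting is terminating and confluent, and a letter map to the group which is onto and identifies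
exactly the words which are equivalent under the rules. -/
theorem result :
    ∃ (m : ℕ) (R : Finset (List (Fin m) × List (Fin m)))
      (φ : Fin m → PresentedGroup
        ({((FreeGroup.of 1)⁻¹ * (FreeGroup.of 0)⁻¹ * FreeGroup.of 1) * FreeGroup.of 0 *
          ((FreeGroup.of 1)⁻¹ * FreeGroup.of 0 * FreeGroup.of 1) * ((FreeGroup.of 0) ^ 2)⁻¹} :
            Set (FreeGroup (Fin 2)))),
      WellFounded (fun v u : List (Fin m) =>
          ∃ x y : List (Fin m), ∃ p ∈ R, u = x ++ p.1 ++ y ∧ v = x ++ p.2 ++ y) ∧
      (∀ a b c : List (Fin m),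
          Relation.ReflTransGen (fun u v : List (Fin m) =>
            ∃ x y : List (Fin m), ∃ p ∈ R, u = x ++ p.1 ++ y ∧ v = x ++ p.2 ++ y) a b →
          Relation.ReflTransGen (fun u v : List (Fin m) =>
            ∃ x y : List (Fin m), ∃ p ∈ R, u = x ++ p.1 ++ y ∧ v = x ++ p.2 ++ y) a c →
          Relation.Join (Relation.ReflTransGen (fun u v : List (Fin m) =>
            ∃ x y : List (Fin m), ∃ p ∈ R, u = x ++ p.1 ++ y ∧ v = x ++ p.2 ++ y)) b c) ∧
      (∀ g, ∃ w : List (Fin m), (w.map φ).prod = g) ∧
      (∀ u v : List (Fin m),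
          (u.map φ).prod = (v.map φ).prod ↔
            Relation.ReflTransGen (fun a b : List (Fin m) =>
              (∃ x y : List (Fin m), ∃ p ∈ R, a = x ++ p.1 ++ y ∧ b = x ++ p.2 ++ y) ∨
              (∃ x y : List (Fin m), ∃ p ∈ R, b = x ++ p.1 ++ y ∧ a = x ++ p.2 ++ y)) u v) :=
  ⟨8, RR, phi, wf_RR, newman (St RR) wf_RR Pool.Agent.W309.BGRLC.main,
    Pool.Agent.W682.BGRREL.main2,
    fun u v => ⟨Pool.Agent.W284.BGRPRES.main u v, fun h => back h⟩⟩

end Pool.Agent.Results.MP_b9845b_al.BaumslagGersten
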